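import Pool.Agent.PCL.Stmts

/-!
Squad PCL (MP_1fc801_co), row RNK: the ranks of the lattices of the rich lines.
-/

set_option autoImplicit false

namespace Pool.Agent.PCL.H14

open Module

/-- ranks of disjoint submodules of `ℤ^ι` -/
theorem rk_add_le {ι : Type} [Fintype ι] (L M : Submodule ℤ (ι → ℤ)) (h : Disjoint L M) :
    finrank ℤ L + finrank ℤ M ≤ Fintype.card ι := by
  classical
  let f : (L × M) →ₗ[ℤ] (ι → ℤ) := (L.subtype).coprod (M.subtype)
  have hf : Function.Injective f := by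
    rw [← LinearMap.ker_eq_bot, LinearMap.ker_eq_bot']
    rintro ⟨x, y⟩ hxy
    have h1 : (x : ι → ℤ) + (y : ι → ℤ) = 0 := by
      simpa [f] using hxy
    have h2 : (x : ι → ℤ) = -(y : ι → ℤ) := eq_neg_of_add_eq_zero_left h1
    have h3 : (x : ι → ℤ) ∈ M := by
      rw [h2]
      exact M.neg_mem y.2
    have h4 : (x : ι → ℤ) = 0 := by
      rw [Submodule.disjoint_def] at h
      exact h _ x.2 h3
    have h5 : (y : ι → ℤ) = 0 := by
      rw [h4, zero_add] at h1
      exact h1
    ext1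
    · exact Subtype.ext h4
    · exact Subtype.ext h5
  have h1 := LinearMap.finrank_le_finrank_of_injective hf
  rw [finrank_prod, finrank_fintype_fun_eq_card] at h1
  exact h1

/-- a nonzero form vanishing on two submodules of small rank -/
theorem exists_form {ι : Type} [Fintype ι] (L M : Submodule ℤ (ι → ℤ))
    (h : finrank ℤ L + finrank ℤ M < Fintype.card ι) :
    ∃ c : ι → ℤ, c ≠ 0 ∧ (∀ x ∈ L, ∑ i, c i * x i = 0) ∧ (∀ x ∈ M, ∑ i, c i * x i = 0) := by
  classical
  let b := finBasis ℤ L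
  let b' := finBasis ℤ M
  let f : (ι → ℤ) →ₗ[ℤ] ((Fin (finrank ℤ L) → ℤ) × (Fin (finrank ℤ M) → ℤ)) :=
    { toFun := fun c => (fun k => ∑ i, c i * (b k : ι → ℤ) i, fun k => ∑ i, c i * (b' k : ι → ℤ) i)
      map_add' := by
        intro x y
        ext k
        · simp [add_mul, Finset.sum_add_distrib]
        · simp [add_mul, Finset.sum_add_distrib]
      map_smul' := by
        intro a x
        ext k
        · simp [Finset.mul_sum, mul_assoc]
        · simp [Finset.mul_sum, mul_assoc] }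
  have hf : ¬ Function.Injective f := by
    intro hinj
    have h1 := LinearMap.finrank_le_finrank_of_injective hinj
    rw [finrank_prod, finrank_fintype_fun_eq_card, finrank_fintype_fun_eq_card,
      finrank_fintype_fun_eq_card, Fintype.card_fin, Fintype.card_fin] at h1
    omega
  have hk : LinearMap.ker f ≠ ⊥ := by
    intro h0
    exact hf (LinearMap.ker_eq_bot.1 h0)
  obtain ⟨c, hc, hc0⟩ := (Submodule.ne_bot_iff _).1 hk
  have hfc : f c = 0 := LinearMap.mem_ker.1 hc
  have key : ∀ (K : Submodule ℤ (ι → ℤ)) (b : Basis (Fin (finrank ℤ K)) ℤ K),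
      (∀ k, ∑ i, c i * (b k : ι → ℤ) i = 0) → ∀ x ∈ K, ∑ i, c i * x i = 0 := by
    intro K b hb x hx
    have h1 : (x : ι → ℤ) = ∑ k, (b.repr ⟨x, hx⟩ k) • (b k : ι → ℤ) := by
      have h2 := congrArg (fun z : K => (z : ι → ℤ)) (b.sum_repr ⟨x, hx⟩)
      simp only [Submodule.coe_sum, Submodule.coe_smul] at h2
      exact h2.symm
    have h3 : ∀ i, x i = ∑ k, (b.repr ⟨x, hx⟩ k) * (b k : ι → ℤ) i := by
      intro i
      have h4 := congrFun h1 i
      simpa [Finset.sum_apply] using h4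
    calc ∑ i, c i * x i = ∑ i, ∑ k, (b.repr ⟨x, hx⟩ k) * (c i * (b k : ι → ℤ) i) := by
          refine Finset.sum_congr rfl fun i _ => ?_
          rw [h3 i, Finset.mul_sum]
          refine Finset.sum_congr rfl fun k _ => ?_
          ring
      _ = ∑ k, (b.repr ⟨x, hx⟩ k) * ∑ i, c i * (b k : ι → ℤ) i := by
          rw [Finset.sum_comm]
          refine Finset.sum_congr rfl fun k _ => ?_
          rw [Finset.mul_sum]
      _ = 0 := by
          refine Finset.sum_eq_zero fun k _ => ?_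
          rw [hb k, mul_zero]
  refine ⟨c, hc0, key L b fun k => ?_, key M b' fun k => ?_⟩
  · exact congrFun (congrArg Prod.fst hfc) k
  · exact congrFun (congrArg Prod.snd hfc) k

/-- independent elements of a generating set -/
theorem exists_indep {ι : Type} [Fintype ι] (S : Set (ι → ℤ)) (m : ℕ)
    (hm : m ≤ finrank ℤ (Submodule.span ℤ S)) :
    ∃ u : Fin m → ι → ℤ, LinearIndependent ℤ u ∧ ∀ k, u k ∈ S := by
  classical
  let φ : (ι → ℤ) → (ι → ℚ) := fun v => algebraMap ℤ ℚ ∘ v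
  let φl : (ι → ℤ) →ₗ[ℤ] (ι → ℚ) :=
    { toFun := φ
      map_add' := by intro x y; ext i; simp [φ]
      map_smul' := by intro a x; ext i; simp [φ] }
  have h1 : finrank ℤ (Submodule.span ℤ S) ≤ finrank ℚ (Submodule.span ℚ (φ '' S)) := by
    let b := finBasis ℤ (Submodule.span ℤ S)
    have hb : LinearIndependent ℤ (fun k => (b k : ι → ℤ)) :=
      b.linearIndependent.map' (Submodule.subtype _) (Submodule.ker_subtype _)
    have hb2 : LinearIndependent ℚ (fun k => algebraMap ℤ ℚ ∘ (b k : ι → ℤ)) :=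
      linearIndependent_algebraMap_comp_iff.2 hb
    have hmem : ∀ x ∈ Submodule.span ℤ S, φ x ∈ Submodule.span ℚ (φ '' S) := by
      intro x hx
      induction hx using Submodule.span_induction with
      | mem x h => exact Submodule.subset_span ⟨x, h, rfl⟩
      | zero =>
        have : φ 0 = 0 := φl.map_zero
        rw [this]
        exact Submodule.zero_mem _
      | add x y _ _ hx hy =>
        have : φ (x + y) = φ x + φ y := φl.map_add x y
        rw [this]
        exact Submodule.add_mem _ hx hy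
      | smul a x _ hx =>
        have : φ (a • x) = (a : ℚ) • φ x := by
          ext i
          simp [φ]
        rw [this]
        exact Submodule.smul_mem _ _ hx
    have hb3 : LinearIndependent ℚ
        (fun k => (⟨φ (b k : ι → ℤ), hmem _ (b k).2⟩ : Submodule.span ℚ (φ '' S))) := by
      apply LinearIndependent.of_comp (Submodule.subtype _)
      exact hb2
    have h2 := hb3.fintype_card_le_finrank
    rwa [Fintype.card_fin] at h2
  obtain ⟨f, hf1, -, hf3⟩ := Submodule.exists_fun_fin_finrank_span_eq ℚ (φ '' S)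
  choose u hu1 hu2 using hf1
  refine ⟨fun k => u (Fin.castLE (hm.trans h1) k), ?_, fun k => hu1 _⟩
  rw [← linearIndependent_algebraMap_comp_iff (R := ℤ) (S := ℚ)]
  have h3 : (fun i => algebraMap ℤ ℚ ∘ u (Fin.castLE (hm.trans h1) i)) =
      f ∘ Fin.castLE (hm.trans h1) := by
    funext k
    exact hu2 _
  rw [h3]
  exact hf3.comp _ (Fin.castLE_injective _)

/-- the span of the points of `L` in the box -/
noncomputable def Sp {ι : Type} (L : Submodule ℤ (ι → ℤ)) (N : ι → ℕ) (r : ℝ) :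
    Submodule ℤ (ι → ℤ) := Submodule.span ℤ {x | x ∈ L ∧ InB N r x}

theorem Sp_le {ι : Type} (L : Submodule ℤ (ι → ℤ)) (N : ι → ℕ) (r : ℝ) : Sp L N r ≤ L := by
  unfold Sp
  rw [Submodule.span_le]
  intro x hx
  exact hx.1

theorem cnt_Sp {ι : Type} [Fintype ι] [DecidableEq ι] (L : Submodule ℤ (ι → ℤ)) (N : ι → ℕ)
    (r : ℝ) : cnt (Sp L N r) N r = cnt L N r := by
  classical
  unfold cnt
  congr 1
  apply Finset.filter_congr
  intro x hx
  rw [mem_bx] at hx
  constructor
  · intro h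
    exact Sp_le L N r h
  · intro h
    exact Submodule.subset_span ⟨h, hx⟩

theorem rnk (h1 : QlmStmt) : RnkStmt := by
  intro ι _ _ g N ε τ T hN hg hε hε1 hT hετ hNτ hT3
  classical
  have hD : (0 : ℝ) < 72 ^ Fintype.card ι := by positivity
  have hτ : 0 < τ := lt_trans (by positivity) hετ
  have hP : (0 : ℝ) < ∏ i, (N i : ℝ) := by
    apply Finset.prod_pos
    intro i _
    have := hN i
    exact_mod_cast this
  -- the number `θ`
  obtain ⟨θ, hθ1, hθ2, hθ3⟩ : ∃ θ : ℝ, ε ≤ θ ∧ (∀ i, 1 / (N i : ℝ) ≤ θ) ∧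
      θ < τ / 72 ^ Fintype.card ι := by
    let f : Option ι → ℝ := fun o => o.elim ε (fun i => 1 / (N i : ℝ))
    have hne : (Finset.univ : Finset (Option ι)).Nonempty := ⟨none, Finset.mem_univ _⟩
    refine ⟨Finset.univ.sup' hne f, ?_, fun i => ?_, ?_⟩
    · exact Finset.le_sup' f (Finset.mem_univ none)
    · exact Finset.le_sup' f (Finset.mem_univ (some i))
    · rw [Finset.sup'_lt_iff]
      intro o _
      cases o with
      | none =>
        change ε < _
        rw [lt_div_iff₀ hD, mul_comm]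
        exact hετ
      | some i =>
        change 1 / (N i : ℝ) < _
        have hNi : (0 : ℝ) < N i := by
          have := hN i
          exact_mod_cast this
        rw [div_lt_div_iff₀ hNi hD, one_mul]
        exact hNτ i
  have hθpos : 0 < θ := lt_of_lt_of_le hε hθ1
  -- disjointness
  have hdisj : ∀ v ∈ T, ∀ v' ∈ T, v ≠ v' → Disjoint (Lat g (pt g v)) (Lat g (pt g v')) := by
    intro v hv v' hv' hne
    exact Lat_disj hg (hT.ncol v hv v' hv' hne)
  -- the main inequality
  have hge : ∀ v ∈ T, ∀ v' ∈ T, v ≠ v' → Fintype.card ι ≤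
      finrank ℤ (Sp (Lat g (pt g v)) N 8) + finrank ℤ (Sp (Lat g (pt g v')) N 8) := by
    intro v hv v' hv' hne
    by_contra hlt
    push Not at hlt
    obtain ⟨c, hc0, hcL, hcM⟩ := exists_form _ _ hlt
    have h2 := (h1 ι N (Sp (Lat g (pt g v)) N 8) (Sp (Lat g (pt g v')) N 8) ε 8 hN
      ((hdisj v hv v' hv' hne).mono (Sp_le _ _ _) (Sp_le _ _ _)) hε (by linarith) (by norm_num)
      (fun x hx hb => hT.mini v hv x (Sp_le _ _ _ hx) hb)
      (fun x hx hb => hT.mini v' hv' x (Sp_le _ _ _ hx) hb)).2 c θ hc0 hcL hcM hθ1 hθ2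
    rw [cnt_Sp, cnt_Sp] at h2
    have h3 := hT.rich v hv
    have h4 := hT.rich v' hv'
    have h72 : ((9 : ℝ) * 8) ^ Fintype.card ι = 72 ^ Fintype.card ι := by norm_num
    rw [h72] at h2
    have h5 : θ * (72 ^ Fintype.card ι * ∏ i, (N i : ℝ)) < τ * ∏ i, (N i : ℝ) := by
      have h6 : θ * 72 ^ Fintype.card ι < τ := by
        rw [lt_div_iff₀ hD] at hθ3
        exact hθ3
      calc θ * (72 ^ Fintype.card ι * ∏ i, (N i : ℝ)) =
            (θ * 72 ^ Fintype.card ι) * ∏ i, (N i : ℝ) := by ring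
        _ < τ * ∏ i, (N i : ℝ) := mul_lt_mul_of_pos_right h6 hP
    set a := (cnt (Lat g (pt g v)) N 8 : ℝ) with ha
    set b := (cnt (Lat g (pt g v')) N 8 : ℝ) with hb
    set e := ((bx N ε).card : ℝ) with he
    have ha0 : 0 ≤ a := Nat.cast_nonneg _
    have hb0 : 0 ≤ b := Nat.cast_nonneg _
    have he0 : 0 ≤ e := Nat.cast_nonneg _
    have hX : 0 < τ * ∏ i, (N i : ℝ) := mul_pos hτ hP
    have h7 : a * b * e < τ * ∏ i, (N i : ℝ) := lt_of_le_of_lt h2 h5
    have h8 : (τ * ∏ i, (N i : ℝ)) * (τ * ∏ i, (N i : ℝ)) ≤ (a ^ 2 * e) * (b ^ 2 * e) :=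
      mul_le_mul h3 h4 hX.le (by positivity)
    have h9 : (a ^ 2 * e) * (b ^ 2 * e) = (a * b * e) * (a * b * e) := by ring
    have h10 : (a * b * e) * (a * b * e) < (τ * ∏ i, (N i : ℝ)) * (τ * ∏ i, (N i : ℝ)) :=
      mul_self_lt_mul_self (by positivity) h7
    linarith
  have heq : ∀ v ∈ T, ∀ v' ∈ T, v ≠ v' →
      finrank ℤ (Sp (Lat g (pt g v)) N 8) + finrank ℤ (Sp (Lat g (pt g v')) N 8) =
        Fintype.card ι := by
    intro v hv v' hv' hne
    apply le_antisymm
    · exact rk_add_le _ _ ((hdisj v hv v' hv' hne).mono (Sp_le _ _ _) (Sp_le _ _ _))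
    · exact hge v hv v' hv' hne
  obtain ⟨v1, v2, v3, hv1, hv2, hv3, h12, h13, h23⟩ : ∃ v1 v2 v3, v1 ∈ T ∧ v2 ∈ T ∧ v3 ∈ T ∧
      v1 ≠ v2 ∧ v1 ≠ v3 ∧ v2 ≠ v3 := by
    have := Finset.two_lt_card.1 (show 2 < T.card by omega)
    obtain ⟨a, ha, b, hb, c, hc, h⟩ := this
    exact ⟨a, b, c, ha, hb, hc, h⟩
  have e12 := heq v1 hv1 v2 hv2 h12
  have e13 := heq v1 hv1 v3 hv3 h13
  have e23 := heq v2 hv2 v3 hv3 h23
  set m := finrank ℤ (Sp (Lat g (pt g v1)) N 8) with hm
  have hcard : Fintype.card ι = 2 * m := by omega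
  have hv2m : finrank ℤ (Sp (Lat g (pt g v2)) N 8) = m := by omega
  -- another element
  have hother : ∀ v ∈ T, ∃ v' ∈ T, v ≠ v' ∧ finrank ℤ (Sp (Lat g (pt g v')) N 8) = m := by
    intro v hv
    by_cases h : v = v1
    · refine ⟨v2, hv2, ?_, hv2m⟩
      rw [h]
      exact h12
    · exact ⟨v1, hv1, h, rfl⟩
  refine ⟨m, ?_, hcard, fun v hv => ?_⟩
  · by_contra h0
    have h00 : Fintype.card ι = 0 := by omega
    have : IsEmpty ι := Fintype.card_eq_zero_iff.1 h00
    exact hT.nz v1 hv1 (Subsingleton.elim _ _)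
  · obtain ⟨v', hv', hne, hrk⟩ := hother v hv
    have e1 := heq v hv v' hv' hne
    have hvm : finrank ℤ (Sp (Lat g (pt g v)) N 8) = m := by omega
    refine ⟨?_, ?_⟩
    · apply le_antisymm
      · have h2 := rk_add_le (Lat g (pt g v)) (Sp (Lat g (pt g v')) N 8)
          ((hdisj v hv v' hv' hne).mono le_rfl (Sp_le _ _ _))
        omega
      · rw [← hvm]
        exact Submodule.finrank_mono (Sp_le _ _ _)
    · obtain ⟨u, hu1, hu2⟩ := exists_indep {x | x ∈ Lat g (pt g v) ∧ InB N 8 x} m hvm.ge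
      exact ⟨u, hu1, hu2⟩

end Pool.Agent.PCL.H14
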